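import Mathlib

/-!
The absolute values on `k(t)`, `k` finite, the product formula, and the Northcott property of the
height.
-/

set_option autoImplicit false

open Polynomial IsDedekindDomain Height
open scoped NNReal

namespace Pool.Agent.BSDFF.MW

variable (k : Type*) [Field k] [Finite k]

/-- The number of elements of the constant field. -/
noncomputable def qq : ℝ≥0 := (Nat.card k : ℝ≥0)

theorem one_lt_qq : 1 < qq k := by
  unfold qq
  have : 1 < Nat.card k := Finite.one_lt_card
  exact_mod_cast this

variable {k}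

/-- The degree of a nonzero prime ideal of `k[t]`. -/
noncomputable def vdeg (v : HeightOneSpectrum k[X]) : ℕ :=
  (Submodule.IsPrincipal.generator v.asIdeal).natDegree

omit [Finite k] in
theorem span_gen (v : HeightOneSpectrum k[X]) :
    v.asIdeal = Ideal.span {Submodule.IsPrincipal.generator v.asIdeal} :=
  (Ideal.span_singleton_generator _).symm

omit [Finite k] in
theorem gen_ne_zero (v : HeightOneSpectrum k[X]) :
    Submodule.IsPrincipal.generator v.asIdeal ≠ 0 := by
  intro h
  have := span_gen v
  rw [h] at this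
  exact v.ne_bot (by rw [this]; simp)

omit [Finite k] in
theorem gen_prime (v : HeightOneSpectrum k[X]) :
    Prime (Submodule.IsPrincipal.generator v.asIdeal) := by
  have h := v.isPrime
  rw [span_gen v, Ideal.span_singleton_prime (gen_ne_zero v)] at h
  exact h

omit [Finite k] in
theorem vdeg_pos (v : HeightOneSpectrum k[X]) : 0 < vdeg v :=
  (gen_prime v).irreducible.natDegree_pos

omit [Finite k] in
theorem vdeg_eq (v : HeightOneSpectrum k[X]) {p : k[X]} (h : v.asIdeal = Ideal.span {p}) :
    vdeg v = p.natDegree := by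
  have h2 : Ideal.span {Submodule.IsPrincipal.generator v.asIdeal} = Ideal.span {p} := by
    rw [← span_gen v, h]
  rw [Ideal.span_singleton_eq_span_singleton] at h2
  exact natDegree_eq_of_degree_eq (degree_eq_degree_of_associated h2)

theorem vbase (v : HeightOneSpectrum k[X]) : 1 < (qq k) ^ (vdeg v) :=
  one_lt_pow₀ (one_lt_qq k) (vdeg_pos v).ne'

/-- The absolute value of a finite place. -/
noncomputable def vabs (v : HeightOneSpectrum k[X]) : AbsoluteValue (RatFunc k) ℝ :=
  v.adicAbv (vbase v)

theorem vabs_le_one (v : HeightOneSpectrum k[X]) (f : k[X]) :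
    vabs v (algebraMap k[X] (RatFunc k) f) ≤ 1 :=
  HeightOneSpectrum.adicAbv_coe_le_one v (vbase v) f

theorem vabs_lt_one_iff (v : HeightOneSpectrum k[X]) (f : k[X]) :
    vabs v (algebraMap k[X] (RatFunc k) f) < 1 ↔ f ∈ v.asIdeal :=
  HeightOneSpectrum.adicAbv_coe_lt_one_iff v (vbase v) f

theorem vabs_eq_one_iff (v : HeightOneSpectrum k[X]) (f : k[X]) :
    vabs v (algebraMap k[X] (RatFunc k) f) = 1 ↔ f ∉ v.asIdeal :=
  HeightOneSpectrum.adicAbv_coe_eq_one_iff v (vbase v) f

theorem vabs_injective : Function.Injective (vabs (k := k)) := by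
  intro v w h
  ext f
  rw [← vabs_lt_one_iff, ← vabs_lt_one_iff, h]

theorem vabs_gen (v : HeightOneSpectrum k[X]) {p : k[X]} (h : v.asIdeal = Ideal.span {p}) :
    vabs v (algebraMap k[X] (RatFunc k) p) = ((qq k : ℝ) ^ p.natDegree)⁻¹ := by
  have hp : p ≠ 0 := by
    rintro rfl
    exact v.ne_bot (by rw [h]; simp)
  unfold vabs
  rw [HeightOneSpectrum.adicAbv_of_algebraMap]
  have : v.intAdicAbv (vbase v) p =
      ((WithZeroMulInt.toNNReal (ne_zero_of_lt (vbase v)) (v.intValuation p) : ℝ≥0) : ℝ) := rfl
  rw [this, v.intValuation_singleton hp h, ← vdeg_eq v h]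
  have h2 : (WithZeroMulInt.toNNReal (ne_zero_of_lt (vbase v)))
      (WithZero.exp (-1 : ℤ)) = ((qq k) ^ vdeg v)⁻¹ := by
    rw [WithZeroMulInt.toNNReal_neg_apply _ (WithZero.exp_ne_zero)]
    have : Multiplicative.toAdd (WithZero.unzero (WithZero.exp_ne_zero (a := (-1 : ℤ)))) = -1 :=
      rfl
    rw [this, zpow_neg_one]
  rw [h2]
  push_cast
  rfl

/-- The absolute value of the infinite place. -/
noncomputable def iabs : AbsoluteValue (RatFunc k) ℝ where
  toFun x := open Classical in if x = 0 then 0 else (qq k : ℝ) ^ x.intDegree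
  map_mul' x y := by
    have hq : (qq k : ℝ) ≠ 0 := by
      have := one_lt_qq k
      exact_mod_cast (zero_lt_one.trans this).ne'
    by_cases hx : x = 0
    · simp [hx]
    · by_cases hy : y = 0
      · simp [hy]
      · simp only [mul_eq_zero, hx, hy, or_self, if_false]
        rw [RatFunc.intDegree_mul hx hy, zpow_add₀ hq]
  nonneg' x := by
    split_ifs
    · exact le_rfl
    · positivity
  eq_zero' x := by
    have hq : (qq k : ℝ) ≠ 0 := by
      have := one_lt_qq k
      exact_mod_cast (zero_lt_one.trans this).ne'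
    constructor
    · intro h
      by_contra hx
      simp only [hx, if_false] at h
      exact zpow_ne_zero _ hq h
    · intro h
      simp [h]
  add_le' x y := by
    have hq : 1 ≤ (qq k : ℝ) := by
      have := one_lt_qq k
      exact_mod_cast this.le
    by_cases hx : x = 0
    · subst hx
      rw [zero_add, if_pos rfl, zero_add]
    · by_cases hy : y = 0
      · subst hy
        rw [add_zero, if_pos (rfl : (0 : RatFunc k) = 0), add_zero]
      · by_cases hxy : x + y = 0
        · simp only [hxy, hx, hy, if_true, if_false]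
          positivity
        · simp only [hxy, hx, hy, if_false]
          have h := RatFunc.intDegree_add_le hy hxy
          rcases le_max_iff.mp h with h | h
          · have h2 : (qq k : ℝ) ^ (x + y).intDegree ≤ (qq k : ℝ) ^ x.intDegree :=
              zpow_le_zpow_right₀ hq h
            have h3 : (0 : ℝ) ≤ (qq k : ℝ) ^ y.intDegree := by positivity
            linarith
          · have h2 : (qq k : ℝ) ^ (x + y).intDegree ≤ (qq k : ℝ) ^ y.intDegree :=
              zpow_le_zpow_right₀ hq h
            have h3 : (0 : ℝ) ≤ (qq k : ℝ) ^ x.intDegree := by positivity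
            linarith

theorem iabs_apply {x : RatFunc k} (hx : x ≠ 0) : iabs x = (qq k : ℝ) ^ x.intDegree := by
  change (open Classical in if x = 0 then 0 else (qq k : ℝ) ^ x.intDegree) = _
  rw [if_neg hx]

theorem iabs_poly {f : k[X]} (hf : f ≠ 0) :
    iabs (algebraMap k[X] (RatFunc k) f) = (qq k : ℝ) ^ f.natDegree := by
  rw [iabs_apply (by simpa using hf), RatFunc.intDegree_polynomial, zpow_natCast]

/-- Finiteness and the product formula for one element. -/
def Good (x : RatFunc k) : Prop :=
  {v : HeightOneSpectrum k[X] | vabs v x ≠ 1}.Finite ∧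
    iabs x * ∏ᶠ v : HeightOneSpectrum k[X], vabs v x = 1

theorem Good.mul {x y : RatFunc k} (hx : Good x) (hy : Good y) : Good (x * y) := by
  refine ⟨(hx.1.union hy.1).subset ?_, ?_⟩
  · intro v hv
    simp only [Set.mem_union, Set.mem_ofPred_eq] at hv ⊢
    by_contra h
    push Not at h
    apply hv
    rw [map_mul, h.1, h.2, one_mul]
  · simp only [map_mul]
    rw [finprod_mul_distrib hx.1 hy.1, mul_mul_mul_comm, hx.2, hy.2, one_mul]

theorem Good.inv {x : RatFunc k} (hx : Good x) : Good x⁻¹ := by
  refine ⟨hx.1.subset ?_, ?_⟩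
  · intro v hv
    simp only [Set.mem_ofPred_eq] at hv ⊢
    intro h
    apply hv
    rw [map_inv₀, h, inv_one]
  · simp only [map_inv₀]
    rw [finprod_inv_distrib, ← mul_inv, hx.2, inv_one]

theorem good_unit {u : k[X]} (hu : IsUnit u) : Good (algebraMap k[X] (RatFunc k) u) := by
  have h1 : ∀ v : HeightOneSpectrum k[X], vabs v (algebraMap k[X] (RatFunc k) u) = 1 := by
    intro v
    rw [vabs_eq_one_iff]
    intro h
    exact v.isPrime.ne_top (Ideal.eq_top_of_isUnit_mem _ h hu)
  refine ⟨?_, ?_⟩
  · simp [h1]
  · simp only [h1, finprod_one, mul_one]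
    rw [iabs_poly hu.ne_zero, natDegree_eq_zero_of_isUnit hu, pow_zero]

theorem good_prime {p : k[X]} (hp : Prime p) : Good (algebraMap k[X] (RatFunc k) p) := by
  have hq : (qq k : ℝ) ≠ 0 := by
    have := one_lt_qq k
    exact_mod_cast (zero_lt_one.trans this).ne'
  let v₀ : HeightOneSpectrum k[X] :=
    ⟨Ideal.span {p}, (Ideal.span_singleton_prime hp.ne_zero).mpr hp,
      by simpa using hp.ne_zero⟩
  have h1 : ∀ v : HeightOneSpectrum k[X], v ≠ v₀ →
      vabs v (algebraMap k[X] (RatFunc k) p) = 1 := by
    intro v hv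
    rw [vabs_eq_one_iff]
    intro h
    apply hv
    ext1
    have h2 : Ideal.span {p} ≤ v.asIdeal := (Ideal.span_singleton_le_iff_mem _).mpr h
    exact ((v₀.isMaximal.eq_of_le v.isPrime.ne_top h2)).symm
  refine ⟨(Set.finite_singleton v₀).subset ?_, ?_⟩
  · intro v hv
    by_contra h
    exact hv (h1 v h)
  · rw [finprod_eq_single _ v₀ h1, vabs_gen v₀ rfl, iabs_poly hp.ne_zero]
    exact mul_inv_cancel₀ (pow_ne_zero _ hq)

theorem good_poly {f : k[X]} (hf : f ≠ 0) : Good (algebraMap k[X] (RatFunc k) f) := by
  induction f using UniqueFactorizationMonoid.induction_on_prime with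
  | h₁ => exact absurd rfl hf
  | h₂ x hx => exact good_unit hx
  | h₃ a p ha hp ih =>
    rw [map_mul]
    exact (good_prime hp).mul (ih ha)

theorem good {x : RatFunc k} (hx : x ≠ 0) : Good x := by
  rw [← RatFunc.num_div_denom x, div_eq_mul_inv]
  exact (good_poly (RatFunc.num_ne_zero hx)).mul (good_poly (RatFunc.denom_ne_zero x)).inv

/-- The admissible absolute values on `k(t)` for `k` finite. -/
noncomputable instance admissible : AdmissibleAbsValues (RatFunc k) where
  archAbsVal := {iabs}
  nonarchAbsVal := Set.range vabs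
  isNonarchimedean := by
    rintro _ ⟨v, rfl⟩
    exact HeightOneSpectrum.isNonarchimedean_adicAbv v (vbase v)
  hasFiniteMulSupport := by
    intro x hx
    have h := (good hx).1
    refine Set.Finite.subset (h.image (fun v => (⟨vabs v, v, rfl⟩ : Set.range (vabs (k := k))))) ?_
    rintro ⟨_, v, rfl⟩ hv
    exact ⟨v, hv, rfl⟩
  product_formula := by
    intro x hx
    have h := (good hx).2
    simp only [Multiset.map_singleton, Multiset.prod_singleton]
    rw [← h]
    congr 1
    exact finprod_eq_of_bijective (Set.rangeFactorization vabs)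
      ⟨fun a b hab => vabs_injective (congrArg Subtype.val hab),
        Set.rangeFactorization_surjective⟩ (fun v => rfl) |>.symm

theorem mulHeight_coprime {f g : k[X]} (h : IsCoprime f g) :
    mulHeight ![algebraMap k[X] (RatFunc k) f, algebraMap k[X] (RatFunc k) g] =
      ⨆ i, iabs (![algebraMap k[X] (RatFunc k) f, algebraMap k[X] (RatFunc k) g] i) := by
  have hne : ![algebraMap k[X] (RatFunc k) f, algebraMap k[X] (RatFunc k) g] ≠ 0 := by
    intro h0
    have hf : algebraMap k[X] (RatFunc k) f = 0 := congrFun h0 0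
    have hg : algebraMap k[X] (RatFunc k) g = 0 := congrFun h0 1
    have hf' : f = 0 := by simpa using hf
    have hg' : g = 0 := by simpa using hg
    subst hf' hg'
    simp [IsCoprime] at h
  rw [mulHeight_eq hne]
  have hfin : ∀ v : AdmissibleAbsValues.nonarchAbsVal (K := RatFunc k),
      ⨆ i, v.val (![algebraMap k[X] (RatFunc k) f, algebraMap k[X] (RatFunc k) g] i) = 1 := by
    rintro ⟨_, v, rfl⟩
    apply le_antisymm
    · refine ciSup_le fun i => ?_
      fin_cases i
      · exact vabs_le_one v f
      · exact vabs_le_one v g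
    · by_cases hf : f ∈ v.asIdeal
      · have hg : g ∉ v.asIdeal := by
          intro hg
          obtain ⟨a, b, hab⟩ := h
          apply v.isPrime.ne_top
          rw [Ideal.eq_top_iff_one, ← hab]
          exact add_mem (Ideal.mul_mem_left _ _ hf) (Ideal.mul_mem_left _ _ hg)
        rw [← vabs_eq_one_iff] at hg
        refine Finite.le_ciSup_of_le (1 : Fin 2) ?_
        exact hg.ge
      · rw [← vabs_eq_one_iff] at hf
        refine Finite.le_ciSup_of_le (0 : Fin 2) ?_
        exact hf.ge
  rw [finprod_congr hfin, finprod_one, mul_one]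
  change (Multiset.map _ {iabs}).prod = _
  rw [Multiset.map_singleton, Multiset.prod_singleton]

theorem le_mulHeight₁ (x : RatFunc k) :
    (qq k : ℝ) ^ x.num.natDegree ≤ mulHeight₁ x ∧
      (qq k : ℝ) ^ x.denom.natDegree ≤ mulHeight₁ x := by
  have h := mulHeight_coprime (RatFunc.isCoprime_num_denom x)
  have hx : mulHeight₁ x = mulHeight ![algebraMap k[X] (RatFunc k) x.num,
      algebraMap k[X] (RatFunc k) x.denom] := by
    rw [← mulHeight₁_div_eq_mulHeight, RatFunc.num_div_denom]
  constructor
  · by_cases h0 : x.num = 0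
    · rw [h0, natDegree_zero, pow_zero]
      exact one_le_mulHeight₁ _
    · rw [hx, h, ← iabs_poly h0]
      exact Finite.le_ciSup_of_le (0 : Fin 2) le_rfl
  · rw [hx, h, ← iabs_poly (RatFunc.denom_ne_zero x)]
    exact Finite.le_ciSup_of_le (1 : Fin 2) le_rfl

theorem finite_natDegree_le (n : ℕ) : {f : k[X] | f.natDegree ≤ n}.Finite := by
  have : Finite (degreeLT k (n + 1)) :=
    Finite.of_equiv _ (degreeLTEquiv k (n + 1)).toEquiv.symm
  refine Set.Finite.subset (Set.toFinite (degreeLT k (n + 1) : Set k[X])) ?_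
  intro f hf
  rw [SetLike.mem_coe, mem_degreeLT]
  exact lt_of_le_of_lt degree_le_natDegree (by exact_mod_cast Nat.lt_succ_of_le hf)

/-- The Northcott property. -/
instance northcott : Northcott (mulHeight₁ (K := RatFunc k)) := by
  refine ⟨fun B => ?_⟩
  have hq : 1 < (qq k : ℝ) := by
    have := one_lt_qq k
    exact_mod_cast this
  obtain ⟨n, hn⟩ := pow_unbounded_of_one_lt B hq
  have hfin : ((fun p : k[X] × k[X] => algebraMap k[X] (RatFunc k) p.1 /
      algebraMap k[X] (RatFunc k) p.2) ''
      ({f : k[X] | f.natDegree ≤ n} ×ˢ {f : k[X] | f.natDegree ≤ n})).Finite :=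
    ((finite_natDegree_le n).prod (finite_natDegree_le n)).image _
  refine hfin.subset ?_
  intro x hx
  have hx : mulHeight₁ x ≤ B := hx
  have h := le_mulHeight₁ x
  refine ⟨(x.num, x.denom), ⟨?_, ?_⟩, RatFunc.num_div_denom x⟩
  · have : (qq k : ℝ) ^ x.num.natDegree < (qq k : ℝ) ^ n := by linarith [h.1]
    exact ((pow_lt_pow_iff_right₀ hq).mp this).le
  · have : (qq k : ℝ) ^ x.denom.natDegree < (qq k : ℝ) ^ n := by linarith [h.2]
    exact ((pow_lt_pow_iff_right₀ hq).mp this).le

end Pool.Agent.BSDFF.MW
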