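import Mathlib

/-!
For a finitely generated abelian group `G` and `n ≥ 1`, the index of `n G` is
`n ^ (rank G) * #G[n]`.
-/

set_option autoImplicit false

namespace Pool.Agent.BSDFF.MW

open scoped DirectSum

/-- The subgroup `n G`. -/
def nG (G : Type*) [AddCommGroup G] (n : ℕ) : AddSubgroup G :=
  (nsmulAddMonoidHom (α := G) n).range

/-- The subgroup `G[n]`. -/
def Gn (G : Type*) [AddCommGroup G] (n : ℕ) : AddSubgroup G :=
  (nsmulAddMonoidHom (α := G) n).ker

theorem mem_nG {G : Type*} [AddCommGroup G] {n : ℕ} {x : G} : x ∈ nG G n ↔ ∃ y, n • y = x :=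
  Iff.rfl

theorem mem_Gn {G : Type*} [AddCommGroup G] {n : ℕ} {x : G} : x ∈ Gn G n ↔ n • x = 0 :=
  Iff.rfl

theorem index_equiv {G H : Type*} [AddCommGroup G] [AddCommGroup H] (e : G ≃+ H) (n : ℕ) :
    (nG G n).index = (nG H n).index := by
  rw [← AddSubgroup.index_comap_of_surjective (nG H n) (f := e.toAddMonoidHom) e.surjective]
  congr 1
  ext x
  constructor
  · rintro ⟨y, rfl⟩
    exact ⟨e y, by simp⟩
  · rintro ⟨y, hy⟩
    refine ⟨e.symm y, ?_⟩
    apply e.injective
    have h : n • y = e x := hy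
    simp [h]

theorem card_equiv {G H : Type*} [AddCommGroup G] [AddCommGroup H] (e : G ≃+ H) (n : ℕ) :
    Nat.card (Gn G n) = Nat.card (Gn H n) := by
  refine Nat.card_congr ⟨fun x => ⟨e x.1, ?_⟩, fun y => ⟨e.symm y.1, ?_⟩, ?_, ?_⟩
  · rw [mem_Gn, ← map_nsmul, mem_Gn.mp x.2, map_zero]
  · rw [mem_Gn, ← map_nsmul, mem_Gn.mp y.2, map_zero]
  · intro x; simp
  · intro y; simp

theorem index_finite {T : Type*} [AddCommGroup T] [Finite T] (n : ℕ) :
    (nG T n).index = Nat.card (Gn T n) := by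
  have h1 := (nG T n).card_mul_index
  have h2 := (Gn T n).card_mul_index
  have h3 : (Gn T n).index = Nat.card (nG T n) := AddSubgroup.index_ker _
  rw [h3, mul_comm] at h2
  have h4 : 0 < Nat.card (nG T n) := Nat.card_pos
  exact Nat.eq_of_mul_eq_mul_left h4 (h1.trans h2.symm)

theorem index_pi (r n : ℕ) [NeZero n] : (nG (Fin r → ℤ) n).index = n ^ r := by
  let f : (Fin r → ℤ) →+ (Fin r → ZMod n) :=
    { toFun := fun x i => (x i : ZMod n)
      map_zero' := by ext; simp
      map_add' := by intro x y; ext; simp }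
  have hf : Function.Surjective f := by
    intro y
    refine ⟨fun i => ((y i).val : ℤ), ?_⟩
    ext i
    simp [f]
  have hk : nG (Fin r → ℤ) n = f.ker := by
    ext x
    rw [mem_nG, AddMonoidHom.mem_ker]
    constructor
    · rintro ⟨y, rfl⟩
      ext i
      simp [f]
    · intro h
      have h2 : ∀ i, (n : ℤ) ∣ x i := by
        intro i
        have := congrFun h i
        exact (ZMod.intCast_zmod_eq_zero_iff_dvd _ _).mp this
      choose y hy using h2
      refine ⟨y, ?_⟩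
      ext i
      simp [hy i]
  rw [hk, AddSubgroup.index_ker, AddMonoidHom.range_eq_top.mpr hf]
  simp

theorem card_pi (r n : ℕ) [NeZero n] : Nat.card (Gn (Fin r → ℤ) n) = 1 := by
  have : Gn (Fin r → ℤ) n = ⊥ := by
    rw [eq_bot_iff]
    intro x hx
    rw [mem_Gn] at hx
    rw [AddSubgroup.mem_bot]
    ext i
    have := congrFun hx i
    simpa [NeZero.ne n] using this
  rw [this]
  simp

theorem index_prod' {A B : Type*} [AddCommGroup A] [AddCommGroup B] (n : ℕ) :
    (nG (A × B) n).index = (nG A n).index * (nG B n).index := by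
  have : nG (A × B) n = (nG A n).prod (nG B n) := by
    ext x
    constructor
    · rintro ⟨y, rfl⟩
      exact ⟨⟨y.1, rfl⟩, ⟨y.2, rfl⟩⟩
    · rintro ⟨⟨y, hy⟩, ⟨z, hz⟩⟩
      exact ⟨(y, z), Prod.ext hy hz⟩
  rw [this, AddSubgroup.index_prod]

theorem card_prod' {A B : Type*} [AddCommGroup A] [AddCommGroup B] (n : ℕ) :
    Nat.card (Gn (A × B) n) = Nat.card (Gn A n) * Nat.card (Gn B n) := by
  rw [← Nat.card_prod]
  refine Nat.card_congr ⟨fun x => (⟨x.1.1, ?_⟩, ⟨x.1.2, ?_⟩), fun y => ⟨(y.1.1, y.2.1), ?_⟩,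
    ?_, ?_⟩
  · have := mem_Gn.mp x.2
    exact mem_Gn.mpr (congrArg Prod.fst this)
  · have := mem_Gn.mp x.2
    exact mem_Gn.mpr (congrArg Prod.snd this)
  · exact mem_Gn.mpr (Prod.ext (mem_Gn.mp y.1.2) (mem_Gn.mp y.2.2))
  · intro x; rfl
  · intro y; rfl

theorem finrank_prod_finite (r : ℕ) (T : Type*) [AddCommGroup T] [Finite T] :
    Module.finrank ℤ ((Fin r → ℤ) × T) = r := by
  have h1 := Submodule.finrank_quotient_add_finrank (R := ℤ)
    (LinearMap.ker (LinearMap.fst ℤ (Fin r → ℤ) T))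
  have h2 : Module.finrank ℤ (LinearMap.ker (LinearMap.fst ℤ (Fin r → ℤ) T)) = 0 := by
    rw [Module.finrank_eq_zero_iff]
    rintro ⟨⟨x, t⟩, hx⟩
    refine ⟨(Nat.card T : ℤ), by exact_mod_cast Nat.card_pos.ne', ?_⟩
    have hx' : x = 0 := hx
    ext
    · simp [hx']
    · simp
  have h3 : Module.finrank ℤ (((Fin r → ℤ) × T) ⧸
      LinearMap.ker (LinearMap.fst ℤ (Fin r → ℤ) T)) = r := by
    rw [LinearEquiv.finrank_eq (LinearMap.quotKerEquivOfSurjective _ LinearMap.fst_surjective)]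
    simp
  rw [← h1, h2, h3, add_zero]

/-- The index of `n G` for a finitely generated abelian group `G`. -/
theorem index_nG (G : Type*) [AddCommGroup G] (hG : AddGroup.FG G) (n : ℕ) (hn : n ≠ 0) :
    (nG G n).index = n ^ (Module.finrank ℤ G) * Nat.card (Gn G n) := by
  have : NeZero n := ⟨hn⟩
  obtain ⟨r, ι, _, p, hp, e, ⟨f⟩⟩ := AddCommGroup.equiv_free_prod_directSum_zmod G
  have : ∀ i, NeZero (p i ^ e i) := fun i => ⟨pow_ne_zero _ (hp i).ne_zero⟩
  have hfin : Finite (⨁ i : ι, ZMod (p i ^ e i)) :=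
    Finite.of_equiv _ (DirectSum.addEquivProd (fun i => ZMod (p i ^ e i))).symm.toEquiv
  let g : G ≃+ (Fin r → ℤ) × (⨁ i : ι, ZMod (p i ^ e i)) :=
    f.trans (AddEquiv.prodCongr Finsupp.addEquivFunOnFinite (AddEquiv.refl _))
  have h1 : Module.finrank ℤ G = r := by
    rw [LinearEquiv.finrank_eq g.toIntLinearEquiv, finrank_prod_finite]
  rw [index_equiv g, card_equiv g, index_prod', card_prod', index_pi, card_pi, index_finite, h1,
    one_mul]

end Pool.Agent.BSDFF.MW
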