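import Mathlib

/-!
The approximate parallelogram law for the naive height on an elliptic curve over a field with
admissible absolute values, and consequences for descent.
-/

set_option autoImplicit false

open WeierstrassCurve Height MvPolynomial

namespace Pool.Agent.BSDFF.MW

variable {K : Type*} [Field K] [DecidableEq K]

/-- The three polynomials of `addSubMap`, evaluated. -/
def asm (W : WeierstrassCurve K) (x : Fin 3 → K) : Fin 3 → K :=
  ![x 0 ^ 2 - W.b₄ * x 0 * x 2 - W.b₆ * x 1 * x 2 - W.b₈ * x 2 ^ 2,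
    2 * x 1 * x 0 + W.b₂ * x 0 * x 2 + W.b₄ * x 1 * x 2 + W.b₆ * x 2 ^ 2,
    x 1 ^ 2 - 4 * x 0 * x 2]

omit [DecidableEq K] in
theorem eval_addSubMap (W : WeierstrassCurve K) (x : Fin 3 → K) :
    (fun i ↦ (addSubMap W i).eval x) = asm W x := by
  ext i
  fin_cases i <;> simp [addSubMap, asm]

theorem asm_double (W : WeierstrassCurve K) [W.IsElliptic] {x y : K}
    (h : W.toAffine.Nonsingular x y) :
    ∃ c : K, c ≠ 0 ∧ asm W ![x * x, x + x, 1] =
      c • (Affine.Point.sym2x (Affine.Point.some x y h + Affine.Point.some x y h)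
        (0 : W.toAffine.Point)) := by
  have he := (W.toAffine.equation_iff x y).mp h.1
  by_cases hy : y = W.toAffine.negY x y
  · have h0 : Affine.Point.some x y h + Affine.Point.some x y h = 0 :=
      Affine.Point.add_self_of_Y_eq hy
    rw [h0, Affine.Point.sym2x_zero_zero]
    have hne := addSubMap_ne_zero W (x := ![x * x, x + x, 1]) (by simp)
    rw [eval_addSubMap] at hne
    have hy' : 2 * y + W.a₁ * x + W.a₃ = 0 := by
      rw [Affine.negY] at hy
      linear_combination hy
    have e1 : asm W ![x * x, x + x, 1] 1 = 0 := by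
      simp only [asm, b₂, b₄, b₆, b₈, Matrix.cons_val_zero, Matrix.cons_val_one, Matrix.cons_val]
      linear_combination (2 * y + W.a₁ * x + W.a₃) * hy' - 4 * he
    have e2 : asm W ![x * x, x + x, 1] 2 = 0 := by
      simp only [asm, Matrix.cons_val_zero, Matrix.cons_val_one, Matrix.cons_val]
      ring
    refine ⟨asm W ![x * x, x + x, 1] 0, ?_, ?_⟩
    · intro h0
      apply hne
      ext i
      fin_cases i
      · exact h0
      · exact e1
      · exact e2
    · ext i
      fin_cases i
      · simp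
      · simpa using e1
      · simpa using e2
  · have hy' : 2 * y + W.a₁ * x + W.a₃ ≠ 0 := by
      intro h0
      apply hy
      rw [Affine.negY]
      linear_combination h0
    rw [Affine.Point.add_self_of_Y_ne hy, Affine.Point.sym2x_some_zero]
    refine ⟨(2 * y + W.a₁ * x + W.a₃) ^ 2, pow_ne_zero 2 hy', ?_⟩
    have hs : W.toAffine.slope x x y y * (2 * y + W.a₁ * x + W.a₃) =
        3 * x ^ 2 + 2 * W.a₂ * x + W.a₄ - W.a₁ * y := by
      rw [Affine.slope_of_Y_ne rfl hy, Affine.negY]
      have : y - (-y - W.a₁ * x - W.a₃) = 2 * y + W.a₁ * x + W.a₃ := by ring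
      rw [this, div_mul_cancel₀ _ hy']
    set s := W.toAffine.slope x x y y with hsd
    ext i
    fin_cases i
    · simp only [asm, b₂, b₄, b₆, b₈, Matrix.cons_val_zero, Matrix.cons_val_one, Matrix.cons_val,
        Pi.smul_apply, smul_eq_mul, Affine.addX, Fin.zero_eta]
      linear_combination (-s * (2 * y + W.a₁ * x + W.a₃) - (3 * x ^ 2 + 2 * W.a₂ * x + W.a₄ - W.a₁ * y)
        - W.a₁ * (2 * y + W.a₁ * x + W.a₃)) * hs + (8 * x + 4 * W.a₂ + W.a₁ ^ 2) * he
    · simp only [asm, b₂, b₄, b₆, b₈, Matrix.cons_val_zero, Matrix.cons_val_one, Matrix.cons_val,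
        Pi.smul_apply, smul_eq_mul, Fin.mk_one]
      linear_combination (-4) * he
    · simp only [asm, Matrix.cons_val_zero, Matrix.cons_val_one, Matrix.cons_val,
        Pi.smul_apply, smul_eq_mul, Fin.reduceFinMk]
      ring

theorem asm_sym2x (W : WeierstrassCurve K) [W.IsElliptic] (P Q : W.toAffine.Point) :
    ∃ c : K, c ≠ 0 ∧ asm W (Affine.Point.sym2x P Q) =
      c • (Affine.Point.sym2x (P + Q) (P - Q)) := by
  rcases P with _ | ⟨x, y, h⟩
  · rw [← Affine.Point.zero_def, zero_add, zero_sub, Affine.Point.sym2x_neg_right]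
    rcases Q with _ | ⟨x', y', h'⟩
    · refine ⟨1, one_ne_zero, ?_⟩
      rw [← Affine.Point.zero_def, Affine.Point.sym2x_zero_zero]
      ext i; fin_cases i <;> simp [asm]
    · refine ⟨1, one_ne_zero, ?_⟩
      rw [Affine.Point.sym2x_zero_some, Affine.Point.sym2x_some_some]
      ext i
      fin_cases i <;> simp [asm] <;> ring
  · rcases Q with _ | ⟨x', y', h'⟩
    · refine ⟨1, one_ne_zero, ?_⟩
      rw [← Affine.Point.zero_def, add_zero, sub_zero, Affine.Point.sym2x_some_zero,
        Affine.Point.sym2x_some_some]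
      ext i
      fin_cases i <;> simp [asm] <;> ring
    · by_cases hx : x = x'
      · subst hx
        rcases Affine.Y_eq_of_X_eq h.1 h'.1 rfl with hy | hy
        · subst hy
          rw [sub_self, Affine.Point.sym2x_some_some]
          exact asm_double W h
        · have hneg : Affine.Point.some x y h = -Affine.Point.some x y' h' := by
            rw [Affine.Point.neg_some]
            congr
          rw [Affine.Point.sym2x_some_some]
          obtain ⟨c, hc, h2⟩ := asm_double W h
          refine ⟨c, hc, ?_⟩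
          rw [h2]
          have h3 : Affine.Point.some x y h + Affine.Point.some x y' h' = 0 := by
            rw [hneg, neg_add_cancel]
          have h4 : Affine.Point.some x y h - Affine.Point.some x y' h' =
              Affine.Point.some x y h + Affine.Point.some x y h := by
            rw [sub_eq_add_neg, ← hneg]
          rw [h3, h4, Affine.Point.sym2x_comm]
      · have hx' : x - x' ≠ 0 := sub_ne_zero.mpr hx
        rw [sub_eq_add_neg, Affine.Point.neg_some,
          Affine.Point.add_some (fun h => hx h.1), Affine.Point.add_some (fun h => hx h.1),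
          Affine.Point.sym2x_some_some, Affine.Point.sym2x_some_some]
        refine ⟨(x - x') ^ 2, pow_ne_zero 2 hx', ?_⟩
        have he := (W.toAffine.equation_iff x y).mp h.1
        have he' := (W.toAffine.equation_iff x' y').mp h'.1
        have s1 : W.toAffine.slope x x' y y' * (x - x') = y - y' := by
          rw [Affine.slope_of_X_ne hx, div_mul_cancel₀ _ hx']
        have s2 : W.toAffine.slope x x' y (W.toAffine.negY x' y') * (x - x') =
            y + y' + W.a₁ * x' + W.a₃ := by
          rw [Affine.slope_of_X_ne hx, div_mul_cancel₀ _ hx', Affine.negY]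
          ring
        set s := W.toAffine.slope x x' y y' with hsd
        set t := W.toAffine.slope x x' y (W.toAffine.negY x' y') with htd
        have key : ∀ A B : K, (x - x') ^ 2 * A = (x - x') ^ 2 * B → A = B :=
          fun A B h => mul_left_cancel₀ (pow_ne_zero 2 hx') h
        have e1 : (x - x') ^ 2 * (s ^ 2 + W.a₁ * s - W.a₂ - x - x') =
            (y - y') ^ 2 + W.a₁ * (y - y') * (x - x') - (W.a₂ + x + x') * (x - x') ^ 2 := by
          linear_combination (s * (x - x') + (y - y') + W.a₁ * (x - x')) * s1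
        have e2 : (x - x') ^ 2 * (t ^ 2 + W.a₁ * t - W.a₂ - x - x') =
            (y + y' + W.a₁ * x' + W.a₃) ^ 2 + W.a₁ * (y + y' + W.a₁ * x' + W.a₃) * (x - x')
              - (W.a₂ + x + x') * (x - x') ^ 2 := by
          linear_combination (t * (x - x') + (y + y' + W.a₁ * x' + W.a₃) + W.a₁ * (x - x')) * s2
        ext i
        fin_cases i
        · simp only [asm, b₂, b₄, b₆, b₈, Matrix.cons_val_zero, Matrix.cons_val_one,
            Matrix.cons_val, Pi.smul_apply, smul_eq_mul, Affine.addX, Fin.zero_eta]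
          apply key
          have : (x - x') ^ 2 * ((x - x') ^ 2 * ((s ^ 2 + W.a₁ * s - W.a₂ - x - x') *
              (t ^ 2 + W.a₁ * t - W.a₂ - x - x'))) =
              ((x - x') ^ 2 * (s ^ 2 + W.a₁ * s - W.a₂ - x - x')) *
              ((x - x') ^ 2 * (t ^ 2 + W.a₁ * t - W.a₂ - x - x')) := by ring
          rw [this, e1, e2]
          have hA : (y - y') ^ 2 + W.a₁ * (y - y') * (x - x') -
              (W.a₂ + x + x') * (x - x') ^ 2 =
              ((x ^ 3 + W.a₂ * x ^ 2 + W.a₄ * x + W.a₆) +
                (x' ^ 3 + W.a₂ * x' ^ 2 + W.a₄ * x' + W.a₆) - (W.a₂ + x + x') * (x - x') ^ 2) -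
              (y * (2 * y' + W.a₁ * x' + W.a₃) + y' * (W.a₁ * x + W.a₃)) := by
            linear_combination he + he'
          have hB : (y + y' + W.a₁ * x' + W.a₃) ^ 2 +
              W.a₁ * (y + y' + W.a₁ * x' + W.a₃) * (x - x') -
              (W.a₂ + x + x') * (x - x') ^ 2 =
              ((x ^ 3 + W.a₂ * x ^ 2 + W.a₄ * x + W.a₆) +
                (x' ^ 3 + W.a₂ * x' ^ 2 + W.a₄ * x' + W.a₆) - (W.a₂ + x + x') * (x - x') ^ 2) +
              (y * (2 * y' + W.a₁ * x' + W.a₃) +
                (y' + W.a₁ * x' + W.a₃) * (W.a₁ * x + W.a₃)) := by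
            linear_combination he + he'
          have hT : (y * (2 * y' + W.a₁ * x' + W.a₃) + y' * (W.a₁ * x + W.a₃)) *
              (y * (2 * y' + W.a₁ * x' + W.a₃) +
                (y' + W.a₁ * x' + W.a₃) * (W.a₁ * x + W.a₃)) =
              (4 * (x' ^ 3 + W.a₂ * x' ^ 2 + W.a₄ * x' + W.a₆) + (W.a₁ * x' + W.a₃) ^ 2) *
                (x ^ 3 + W.a₂ * x ^ 2 + W.a₄ * x + W.a₆) +
              (x' ^ 3 + W.a₂ * x' ^ 2 + W.a₄ * x' + W.a₆) * (W.a₁ * x + W.a₃) ^ 2 := by
            linear_combination (2 * y' + W.a₁ * x' + W.a₃) ^ 2 * he +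
              (4 * (x ^ 3 + W.a₂ * x ^ 2 + W.a₄ * x + W.a₆) + (W.a₁ * x + W.a₃) ^ 2) * he'
          rw [hA, hB]
          linear_combination hT
        · simp only [asm, b₂, b₄, b₆, b₈, Matrix.cons_val_zero, Matrix.cons_val_one,
            Matrix.cons_val, Pi.smul_apply, smul_eq_mul, Affine.addX, Fin.mk_one]
          linear_combination (-2) * he + (-2) * he' - e1 - e2
        · simp only [asm, Matrix.cons_val_zero, Matrix.cons_val_one, Matrix.cons_val,
            Pi.smul_apply, smul_eq_mul, Fin.reduceFinMk]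
          ring

/-- The naive logarithmic height of a point. -/
noncomputable def hgt [AdmissibleAbsValues K] (W : WeierstrassCurve K) (P : W.toAffine.Point) :
    ℝ :=
  logHeight P.xRep

section
variable [AdmissibleAbsValues K] (W : WeierstrassCurve K)

omit [DecidableEq K] in
theorem hgt_nonneg (P : W.toAffine.Point) : 0 ≤ hgt W P := logHeight_nonneg _

omit [DecidableEq K] in
theorem hgt_zero : hgt W 0 = 0 := by
  have h := abs_nonneg (0 : ℝ)
  unfold hgt
  rw [Affine.Point.xRep_zero, ← logHeight₁_div_eq_logHeight]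
  simp

omit [DecidableEq K] in
theorem hgt_neg (P : W.toAffine.Point) : hgt W (-P) = hgt W P := by
  unfold hgt
  rw [Affine.Point.xRep_neg]

omit [DecidableEq K] in
theorem hgt_some {x y : K} (h : W.toAffine.Nonsingular x y) :
    hgt W (Affine.Point.some x y h) = logHeight₁ x := by
  unfold hgt
  rw [Affine.Point.xRep_some, logHeight₁_eq_logHeight]

/-- The approximate parallelogram law. -/
theorem parallelogram [W.IsElliptic] :
    ∃ C : ℝ, ∀ P Q : W.toAffine.Point,
      |hgt W (P + Q) + hgt W (P - Q) - 2 * (hgt W P + hgt W Q)| ≤ C := by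
  obtain ⟨C₁, h₁⟩ := abs_logHeight_addSubMap_sub_two_mul_logHeight_le W
  obtain ⟨C₂, h₂⟩ := abs_logHeight_sym2_sub_le K
  have hne : ∀ P : W.toAffine.Point, ![P.xRep 0, P.xRep 1] ≠ 0 := by
    intro P h
    apply P.xRep_ne_zero
    ext i
    fin_cases i
    · exact congrFun h 0
    · exact congrFun h 1
  have hh : ∀ P : W.toAffine.Point, logHeight ![P.xRep 0, P.xRep 1] = hgt W P := by
    intro P
    unfold hgt
    congr 1
    ext i
    fin_cases i <;> rfl
  have hs : ∀ P Q : W.toAffine.Point,
      |logHeight (Affine.Point.sym2x P Q) - (hgt W P + hgt W Q)| ≤ C₂ := by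
    intro P Q
    have := h₂ (hne P) (hne Q)
    rw [hh, hh] at this
    exact this
  refine ⟨C₁ + 3 * C₂, fun P Q => ?_⟩
  obtain ⟨c, hc, h3⟩ := asm_sym2x W P Q
  have h4 := h₁ (Affine.Point.sym2x P Q)
  rw [eval_addSubMap, h3, logHeight_smul_eq_logHeight _ hc] at h4
  have h5 := hs P Q
  have h6 := hs (P + Q) (P - Q)
  rw [abs_le] at *
  constructor <;> linarith [h4.1, h4.2, h5.1, h5.2, h6.1, h6.2]

/-- `h (n P) = n ^ 2 h (P) + O (1)`. -/
theorem hgt_nsmul [W.IsElliptic] (n : ℕ) :
    ∃ C : ℝ, ∀ P : W.toAffine.Point, |hgt W (n • P) - n ^ 2 * hgt W P| ≤ C := by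
  obtain ⟨C, hC⟩ := parallelogram W
  have key : ∀ n : ℕ, ∃ C₁ C₂ : ℝ, ∀ P : W.toAffine.Point,
      |hgt W (n • P) - n ^ 2 * hgt W P| ≤ C₁ ∧
      |hgt W ((n + 1) • P) - (n + 1) ^ 2 * hgt W P| ≤ C₂ := by
    intro n
    induction n with
    | zero =>
      refine ⟨0, 0, fun P => ⟨?_, ?_⟩⟩
      · simp [hgt_zero]
      · simp
    | succ n ih =>
      obtain ⟨C₁, C₂, h⟩ := ih
      refine ⟨C₂, C + 2 * C₂ + C₁, fun P => ⟨?_, ?_⟩⟩
      · have := (h P).2
        push_cast
        exact this
      · have h1 := (h P).1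
        have h2 := (h P).2
        have h3 := hC ((n + 1) • P) P
        have e1 : (n + 1) • P + P = (n + 1 + 1) • P := (succ_nsmul P (n + 1)).symm
        have e2 : (n + 1) • P - P = n • P := by rw [succ_nsmul, add_sub_cancel_right]
        rw [e1, e2] at h3
        push_cast
        rw [abs_le] at *
        constructor <;> nlinarith [h1.1, h1.2, h2.1, h2.2, h3.1, h3.2]
  obtain ⟨C₁, C₂, h⟩ := key n
  exact ⟨C₁, fun P => (h P).1⟩

omit [DecidableEq K] in
/-- Northcott property on the points. -/
theorem northcott_hgt [Northcott (logHeight₁ (K := K))] : Northcott (hgt W) := by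
  refine ⟨fun B => ?_⟩
  have hfin := Northcott.finite_le (h := logHeight₁ (K := K)) B
  have hfib : ∀ r : Fin 2 → K, {P : W.toAffine.Point | P.xRep = r}.Finite := by
    intro r
    by_cases hr : ∃ P : W.toAffine.Point, P.xRep = r
    · obtain ⟨P, hP⟩ := hr
      refine Set.Finite.subset (Set.toFinite {P, -P}) ?_
      intro Q hQ
      have : Q.xRep = P.xRep := by rw [hP]; exact hQ
      rcases Affine.Point.eq_or_eq_neg_of_xRep_eq_xRep this with h | h
      · left; exact h
      · right; exact h
    · push Not at hr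
      convert Set.finite_empty
      ext Q
      simpa using hr Q
  have himg : ((fun x : K => ![x, 1]) '' {x | logHeight₁ x ≤ B} ∪ {![1, 0]}).Finite :=
    (hfin.image _).union (Set.finite_singleton _)
  refine Set.Finite.subset (Set.Finite.preimage' himg (f := fun P : W.toAffine.Point => P.xRep)
    (fun r _ => hfib r)) ?_
  intro P hP
  rcases P with _ | ⟨x, y, h⟩
  · right
    rw [← Affine.Point.zero_def]
    simp
  · left
    refine ⟨x, ?_, ?_⟩
    · have : hgt W (Affine.Point.some x y h) ≤ B := hP
      rw [hgt_some] at this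
      exact this
    · simp

/-- Finite generation from finiteness of `G / n G` for one `n ≥ 2`. -/
theorem fg_of_finiteIndex [Northcott (logHeight₁ (K := K))] [W.IsElliptic] {n : ℕ} (hn : 2 ≤ n)
    (H : (nsmulAddMonoidHom (α := W.toAffine.Point) n).range.FiniteIndex) :
    AddGroup.FG W.toAffine.Point := by
  have := northcott_hgt W
  obtain ⟨C, hC⟩ := parallelogram W
  obtain ⟨D, hD⟩ := hgt_nsmul W n
  refine AddCommGroup.fg_of_descent (n := n) (h := hgt W) (a := 2) (b := 4) (c₀ := D)
    (c := fun g => 2 * hgt W g + C) (by norm_num) (by norm_num) H ?_ ?_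
  · intro g x
    have h1 := hC (g + x) g
    have e1 : g + x - g = x := by abel
    rw [e1, abs_le] at h1
    have := hgt_nonneg W (g + x + g)
    linarith [h1.1, h1.2]
  · intro x
    have h1 := hD x
    rw [abs_le] at h1
    have h2 := hgt_nonneg W x
    have h3 : (4 : ℝ) ≤ (n : ℝ) ^ 2 := by
      have : (2 : ℝ) ≤ n := by exact_mod_cast hn
      nlinarith
    nlinarith [h1.1, h1.2]

end

end Pool.Agent.BSDFF.MW
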